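import Mathlib

open scoped ENNReal Topology
open MeasureTheory

namespace Pool.Agent.Results.MP_6cf06e_an.LOne

/-- The numerical radius of a map `F` from `X` to `X`: the supremum of `‖f (F x)‖` over all
`x` and all functionals `f` with `‖x‖ = ‖f‖ = f x = 1`. -/
noncomputable def radius (𝕜 X : Type) [RCLike 𝕜] [NormedAddCommGroup X] [NormedSpace 𝕜 X]
    (F : X → X) : ℝ :=
  sSup {r : ℝ | ∃ (x : X) (f : X →L[𝕜] 𝕜), ‖x‖ = 1 ∧ ‖f‖ = 1 ∧ f x = 1 ∧ r = ‖f (F x)‖}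

/-- The polynomial numerical index of order two of a normed space; the polynomials are the
maps `x ↦ A x x` with `A` a bounded bilinear map, normed by the supremum over the unit sphere. -/
noncomputable def quadIndex (𝕜 X : Type) [RCLike 𝕜] [NormedAddCommGroup X] [NormedSpace 𝕜 X] : ℝ :=
  sInf {s : ℝ | ∃ A : X →L[𝕜] X →L[𝕜] X,
    sSup {r : ℝ | ∃ x : X, ‖x‖ = 1 ∧ r = ‖A x x‖} = 1 ∧ s = radius 𝕜 X (fun x => A x x)}

section reals

lemma four {a b c d : ℝ} (ha : 0 ≤ a) (hb : 0 ≤ b) (hc : 0 ≤ c) (hd : 0 ≤ d)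
    (h : a + b + c + d ≤ 1) :
    a * |b - c - d| + b * |a - c - d| + c * |a + b - d| + d * |a + b - c| ≤ 1 / 2 := by
  have hab := mul_nonneg ha hb
  have hac := mul_nonneg ha hc
  have had := mul_nonneg ha hd
  have hbc := mul_nonneg hb hc
  have hbd := mul_nonneg hb hd
  have hcd := mul_nonneg hc hd
  have h2 : (a + b + c + d) ^ 2 ≤ 1 := by
    have : 0 ≤ a + b + c + d := by positivity
    nlinarith
  rcases abs_cases (b - c - d) with ⟨e1, f1⟩ | ⟨e1, f1⟩ <;>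
  rcases abs_cases (a - c - d) with ⟨e2, f2⟩ | ⟨e2, f2⟩ <;>
  rcases abs_cases (a + b - d) with ⟨e3, f3⟩ | ⟨e3, f3⟩ <;>
  rcases abs_cases (a + b - c) with ⟨e4, f4⟩ | ⟨e4, f4⟩ <;>
  rw [e1, e2, e3, e4] <;>
  nlinarith [sq_nonneg (a - b), sq_nonneg (a + b - c - d), sq_nonneg (c - d),
    sq_nonneg (a - c - d), sq_nonneg (b - c - d), sq_nonneg (a + b - c), sq_nonneg (a + b - d)]

end reals

section abstractpart

variable {𝕜 X : Type} [RCLike 𝕜] [NormedAddCommGroup X] [NormedSpace 𝕜 X]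

lemma eq_of_re {z : 𝕜} {r : ℝ} (h1 : RCLike.re z = r) (h2 : ‖z‖ ≤ r) : z = (r : 𝕜) := by
  have h3 : RCLike.im z = 0 := by
    have h4 := RCLike.norm_sq_eq_def (z := z)
    have h5 : ‖z‖ ^ 2 ≤ r ^ 2 := by
      have := norm_nonneg z
      gcongr
    rw [h1] at h4
    nlinarith [sq_nonneg (RCLike.im z)]
  apply RCLike.ext
  · rw [h1, RCLike.ofReal_re]
  · rw [h3, RCLike.ofReal_im]

lemma radius_nonneg (F : X → X) : 0 ≤ radius 𝕜 X F := by
  apply Real.sSup_nonneg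
  rintro _ ⟨x, f, hx, hf, hfx, rfl⟩
  exact norm_nonneg _

variable (ℓ : Fin 4 → X →L[𝕜] 𝕜) (R : Fin 4 → X →L[𝕜] X)

/-- The bilinear map of the example. -/
noncomputable def bil : X →L[𝕜] X →L[𝕜] X :=
  ((4 / 3 : 𝕜) • (ℓ 1 + ℓ 2 + ℓ 3)).smulRight (R 0) +
  ((4 / 3 : 𝕜) • (ℓ 0 + ℓ 2 + ℓ 3)).smulRight (R 1) -
  ((4 / 3 : 𝕜) • (ℓ 0 + ℓ 1 + ℓ 3)).smulRight (R 2) -
  ((4 / 3 : 𝕜) • (ℓ 0 + ℓ 1 + ℓ 2)).smulRight (R 3)

lemma bil_apply (x y : X) : bil ℓ R x y =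
    ((4 / 3 : 𝕜) * (ℓ 1 x + ℓ 2 x + ℓ 3 x)) • R 0 y +
    ((4 / 3 : 𝕜) * (ℓ 0 x + ℓ 2 x + ℓ 3 x)) • R 1 y -
    ((4 / 3 : 𝕜) * (ℓ 0 x + ℓ 1 x + ℓ 3 x)) • R 2 y -
    ((4 / 3 : 𝕜) * (ℓ 0 x + ℓ 1 x + ℓ 2 x)) • R 3 y := rfl

variable {ℓ R}

/-- The main estimate, for spaces with four complementary additive summands. -/
theorem quadIndex_le
    (hR : ∀ i j x, R i (R j x) = if i = j then R j x else 0)
    (hN : ∀ x, ‖x - (R 0 x + R 1 x + R 2 x + R 3 x)‖ + (‖R 0 x‖ + ‖R 1 x‖ + ‖R 2 x‖ + ‖R 3 x‖) ≤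
      ‖x‖)
    (hne : ∀ i, ∃ x, R i x ≠ 0) : quadIndex 𝕜 X ≤ 2 / 3 := by
  have hu : ∀ i, ∃ u : X, ‖u‖ = 1 ∧ R i u = u := by
    intro i
    obtain ⟨x, hx⟩ := hne i
    have h0 : (‖R i x‖ : 𝕜) ≠ 0 := by exact_mod_cast norm_ne_zero_iff.2 hx
    refine ⟨(‖R i x‖ : 𝕜)⁻¹ • R i x, ?_, ?_⟩
    · rw [norm_smul, norm_inv, RCLike.norm_ofReal, abs_norm, inv_mul_cancel₀]
      exact norm_ne_zero_iff.2 hx
    · rw [map_smul, hR, if_pos rfl]
  choose u hu1 hu2 using hu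
  have hg : ∀ i, ∃ g : X →L[𝕜] 𝕜, ‖g‖ = 1 ∧ g (u i) = 1 := by
    intro i
    have hne0 : ‖u i‖ ≠ 0 := by
      rw [hu1]
      exact one_ne_zero
    obtain ⟨g, hg1, hg2⟩ := exists_dual_vector 𝕜 (u i) hne0
    refine ⟨g, hg1, ?_⟩
    rw [hg2, hu1]; simp
  choose g hg1 hg2 using hg
  set ℓ : Fin 4 → X →L[𝕜] 𝕜 := fun i => (g i).comp (R i) with hℓ
  have hℓa : ∀ i x, ‖ℓ i x‖ ≤ ‖R i x‖ := by
    intro i x
    have := (g i).le_opNorm (R i x)
    rw [hg1, one_mul] at this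
    exact this
  have hℓu : ∀ i j, ℓ i (u j) = if i = j then 1 else 0 := by
    intro i j
    show g i (R i (u j)) = _
    rw [← hu2 j, hR]
    split_ifs with h
    · rw [hu2, ← h, hg2]
    · rw [map_zero]
  have hRu : ∀ i j, R i (u j) = if i = j then u j else 0 := by
    intro i j
    rw [← hu2 j, hR, hu2 j]
  have hsum : ∀ x : X, ‖x‖ = 1 → ‖R 0 x‖ + ‖R 1 x‖ + ‖R 2 x‖ + ‖R 3 x‖ ≤ 1 := by
    intro x hx
    have := hN x
    rw [hx] at this
    linarith [norm_nonneg (x - (R 0 x + R 1 x + R 2 x + R 3 x))]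
  have h43 : ‖(4 / 3 : 𝕜)‖ = 4 / 3 := by
    rw [norm_div]
    simp
  -- the norm of the polynomial is at most one
  have hle : ∀ x : X, ‖x‖ = 1 → ‖bil ℓ R x x‖ ≤ 1 := by
    intro x hx
    have hs := hsum x hx
    have b : ∀ i j k m : Fin 4, ‖((4 / 3 : 𝕜) * (ℓ i x + ℓ j x + ℓ k x)) • R m x‖ ≤
        4 / 3 * ((‖R i x‖ + ‖R j x‖ + ‖R k x‖) * ‖R m x‖) := by
      intro i j k m
      rw [norm_smul, norm_mul, h43, mul_assoc]
      have h1 : ‖ℓ i x + ℓ j x + ℓ k x‖ ≤ ‖R i x‖ + ‖R j x‖ + ‖R k x‖ :=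
        (norm_add₃_le).trans (add_le_add (add_le_add (hℓa i x) (hℓa j x)) (hℓa k x))
      gcongr
    rw [bil_apply]
    have b0 := b 1 2 3 0
    have b1 := b 0 2 3 1
    have b2 := b 0 1 3 2
    have b3 := b 0 1 2 3
    have t : ∀ p q r s : X, ‖p + q - r - s‖ ≤ ‖p‖ + ‖q‖ + ‖r‖ + ‖s‖ := by
      intro p q r s
      calc ‖p + q - r - s‖ ≤ ‖p + q - r‖ + ‖s‖ := norm_sub_le _ _
        _ ≤ ‖p + q‖ + ‖r‖ + ‖s‖ := by gcongr; exact norm_sub_le _ _
        _ ≤ ‖p‖ + ‖q‖ + ‖r‖ + ‖s‖ := by gcongr; exact norm_add_le _ _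
    refine (t _ _ _ _).trans ((add_le_add (add_le_add (add_le_add b0 b1) b2) b3).trans ?_)
    have n0 := norm_nonneg (R 0 x)
    have n1 := norm_nonneg (R 1 x)
    have n2 := norm_nonneg (R 2 x)
    have n3 := norm_nonneg (R 3 x)
    have h2 : (‖R 0 x‖ + ‖R 1 x‖ + ‖R 2 x‖ + ‖R 3 x‖) ^ 2 ≤ 1 := by
      have : 0 ≤ ‖R 0 x‖ + ‖R 1 x‖ + ‖R 2 x‖ + ‖R 3 x‖ := by positivity
      nlinarith
    nlinarith [sq_nonneg (‖R 0 x‖ - ‖R 1 x‖), sq_nonneg (‖R 0 x‖ - ‖R 2 x‖),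
      sq_nonneg (‖R 0 x‖ - ‖R 3 x‖), sq_nonneg (‖R 1 x‖ - ‖R 2 x‖),
      sq_nonneg (‖R 1 x‖ - ‖R 3 x‖), sq_nonneg (‖R 2 x‖ - ‖R 3 x‖)]
  -- and it is equal to one
  have hsup : sSup {r : ℝ | ∃ x : X, ‖x‖ = 1 ∧ r = ‖bil ℓ R x x‖} = 1 := by
    apply le_antisymm
    · apply Real.sSup_le _ zero_le_one
      rintro _ ⟨x, hx, rfl⟩
      exact hle x hx
    · apply le_csSup
      · refine ⟨1, ?_⟩
        rintro _ ⟨x, hx, rfl⟩
        exact hle x hx
      · set x : X := (1 / 4 : 𝕜) • (u 0 + u 1 + u 2 + u 3) with hx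
        have h4 : ‖(1 / 4 : 𝕜)‖ = 1 / 4 := by
          rw [norm_div]
          simp
        have hRx : ∀ i, R i x = (1 / 4 : 𝕜) • u i := by
          intro i
          rw [hx, map_smul, map_add, map_add, map_add, hRu, hRu, hRu, hRu]
          congr 1
          fin_cases i <;> simp
        have hℓx : ∀ i, ℓ i x = 1 / 4 := by
          intro i
          rw [hx, map_smul, map_add, map_add, map_add, hℓu, hℓu, hℓu, hℓu]
          fin_cases i <;> simp
        have hRn : ∀ i, ‖R i x‖ = 1 / 4 := by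
          intro i
          rw [hRx, norm_smul, h4, hu1, mul_one]
        have hx1 : ‖x‖ = 1 := by
          apply le_antisymm
          · rw [hx, norm_smul, h4]
            have : ‖u 0 + u 1 + u 2 + u 3‖ ≤ ‖u 0‖ + ‖u 1‖ + ‖u 2‖ + ‖u 3‖ :=
              (norm_add_le _ _).trans (by gcongr; exact norm_add₃_le)
            rw [hu1, hu1, hu1, hu1] at this
            linarith
          · have := hN x
            rw [hRn, hRn, hRn, hRn] at this
            linarith [norm_nonneg (x - (R 0 x + R 1 x + R 2 x + R 3 x))]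
        have hval : bil ℓ R x x = (1 / 4 : 𝕜) • (u 0 + u 1 - u 2 - u 3) := by
          rw [bil_apply, hℓx, hℓx, hℓx, hℓx, hRx, hRx, hRx, hRx]
          have h5 : (4 / 3 : 𝕜) * (1 / 4 + 1 / 4 + 1 / 4) = 1 := by norm_num
          rw [h5, one_smul, one_smul, one_smul, one_smul]
          module
        have hRv : ∀ i, ‖R i (bil ℓ R x x)‖ = 1 / 4 := by
          intro i
          rw [hval, map_smul, map_sub, map_sub, map_add, hRu, hRu, hRu, hRu, norm_smul, h4]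
          fin_cases i <;> simp [hu1]
        refine ⟨x, hx1, ?_⟩
        apply le_antisymm
        · have := hN (bil ℓ R x x)
          rw [hRv, hRv, hRv, hRv] at this
          linarith [norm_nonneg (bil ℓ R x x - (R 0 (bil ℓ R x x) + R 1 (bil ℓ R x x) +
            R 2 (bil ℓ R x x) + R 3 (bil ℓ R x x)))]
        · exact hle x hx1
  -- the numerical radius is at most two thirds
  have hrad : radius 𝕜 X (fun x => bil ℓ R x x) ≤ 2 / 3 := by
    apply Real.sSup_le _ (by norm_num)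
    rintro _ ⟨x, f, hx, hf, hfx, rfl⟩
    have hfn : ∀ y, ‖f y‖ ≤ ‖y‖ := by
      intro y
      have := f.le_opNorm y
      rwa [hf, one_mul] at this
    have hre : ∀ y, RCLike.re (f y) ≤ ‖y‖ := fun y =>
      (RCLike.re_le_norm _).trans (hfn y)
    have hfx' : RCLike.re (f (x - (R 0 x + R 1 x + R 2 x + R 3 x))) + (RCLike.re (f (R 0 x)) +
        RCLike.re (f (R 1 x)) + RCLike.re (f (R 2 x)) + RCLike.re (f (R 3 x))) = 1 := by
      rw [← map_add, ← map_add, ← map_add, ← map_add, ← map_add, ← map_add, ← map_add, ← map_add,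
        sub_add_cancel, hfx, RCLike.one_re]
    have hNx := hN x
    rw [hx] at hNx
    have e := hre (x - (R 0 x + R 1 x + R 2 x + R 3 x))
    have e0 := hre (R 0 x)
    have e1 := hre (R 1 x)
    have e2 := hre (R 2 x)
    have e3 := hre (R 3 x)
    have f0 : f (R 0 x) = (‖R 0 x‖ : 𝕜) := eq_of_re (by linarith) (hfn _)
    have f1 : f (R 1 x) = (‖R 1 x‖ : 𝕜) := eq_of_re (by linarith) (hfn _)
    have f2 : f (R 2 x) = (‖R 2 x‖ : 𝕜) := eq_of_re (by linarith) (hfn _)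
    have f3 : f (R 3 x) = (‖R 3 x‖ : 𝕜) := eq_of_re (by linarith) (hfn _)
    have hform : f (bil ℓ R x x) = (4 / 3 : 𝕜) * (ℓ 0 x * ((‖R 1 x‖ - ‖R 2 x‖ - ‖R 3 x‖ : ℝ) : 𝕜) +
        ℓ 1 x * ((‖R 0 x‖ - ‖R 2 x‖ - ‖R 3 x‖ : ℝ) : 𝕜) +
        ℓ 2 x * ((‖R 0 x‖ + ‖R 1 x‖ - ‖R 3 x‖ : ℝ) : 𝕜) +
        ℓ 3 x * ((‖R 0 x‖ + ‖R 1 x‖ - ‖R 2 x‖ : ℝ) : 𝕜)) := by
      rw [bil_apply, map_sub, map_sub, map_add, map_smul, map_smul, map_smul, map_smul, f0, f1, f2,
        f3, smul_eq_mul, smul_eq_mul, smul_eq_mul, smul_eq_mul]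
      push_cast
      ring
    rw [hform, norm_mul, h43]
    have hb : ∀ (i : Fin 4) (c : ℝ), ‖ℓ i x * (c : 𝕜)‖ ≤ ‖R i x‖ * |c| := by
      intro i c
      rw [norm_mul, RCLike.norm_ofReal]
      gcongr
      exact hℓa i x
    have h4 := four (norm_nonneg (R 0 x)) (norm_nonneg (R 1 x)) (norm_nonneg (R 2 x))
      (norm_nonneg (R 3 x)) (hsum x hx)
    have h5 : ‖ℓ 0 x * ((‖R 1 x‖ - ‖R 2 x‖ - ‖R 3 x‖ : ℝ) : 𝕜) +
        ℓ 1 x * ((‖R 0 x‖ - ‖R 2 x‖ - ‖R 3 x‖ : ℝ) : 𝕜) +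
        ℓ 2 x * ((‖R 0 x‖ + ‖R 1 x‖ - ‖R 3 x‖ : ℝ) : 𝕜) +
        ℓ 3 x * ((‖R 0 x‖ + ‖R 1 x‖ - ‖R 2 x‖ : ℝ) : 𝕜)‖ ≤ 1 / 2 := by
      refine le_trans ?_ h4
      refine (norm_add_le _ _).trans (add_le_add ?_ (hb _ _))
      exact (norm_add₃_le).trans (add_le_add (add_le_add (hb _ _) (hb _ _)) (hb _ _))
    linarith
  have hb : BddBelow {s : ℝ | ∃ A : X →L[𝕜] X →L[𝕜] X,
      sSup {r : ℝ | ∃ x : X, ‖x‖ = 1 ∧ r = ‖A x x‖} = 1 ∧ s = radius 𝕜 X (fun x => A x x)} := by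
    refine ⟨0, ?_⟩
    rintro _ ⟨B, _, rfl⟩
    exact radius_nonneg _
  exact (csInf_le hb ⟨bil ℓ R, hsup, rfl⟩).trans hrad

end abstractpart

section lone

variable {α : Type} [MeasurableSpace α] {μ : Measure α} {𝕜 : Type} [RCLike 𝕜]

/-- Multiplication with an indicator function. -/
noncomputable def resF (s : Set α) (hs : MeasurableSet s) (x : Lp 𝕜 1 μ) : Lp 𝕜 1 μ :=
  MemLp.toLp (s.indicator x) ((Lp.memLp x).indicator hs)

lemma resF_coe (s : Set α) (hs : MeasurableSet s) (x : Lp 𝕜 1 μ) :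
    resF s hs x =ᵐ[μ] s.indicator x :=
  MemLp.coeFn_toLp _

lemma resF_add (s : Set α) (hs : MeasurableSet s) (x y : Lp 𝕜 1 μ) :
    resF s hs (x + y) = resF s hs x + resF s hs y := by
  apply Lp.ext
  filter_upwards [resF_coe s hs (x + y), Lp.coeFn_add (resF s hs x) (resF s hs y),
    resF_coe s hs x, resF_coe s hs y, Lp.coeFn_add x y] with t h1 h2 h3 h4 h5
  rw [h1, h2, Pi.add_apply, h3, h4]
  by_cases ht : t ∈ s
  · rw [Set.indicator_of_mem ht, Set.indicator_of_mem ht, Set.indicator_of_mem ht, h5, Pi.add_apply]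
  · rw [Set.indicator_of_notMem ht, Set.indicator_of_notMem ht, Set.indicator_of_notMem ht,
      add_zero]

lemma resF_smul (s : Set α) (hs : MeasurableSet s) (c : 𝕜) (x : Lp 𝕜 1 μ) :
    resF s hs (c • x) = c • resF s hs x := by
  apply Lp.ext
  filter_upwards [resF_coe s hs (c • x), Lp.coeFn_smul c (resF s hs x),
    resF_coe s hs x, Lp.coeFn_smul c x] with t h1 h2 h3 h5
  rw [h1, h2, Pi.smul_apply, h3]
  by_cases ht : t ∈ s
  · rw [Set.indicator_of_mem ht, Set.indicator_of_mem ht, h5, Pi.smul_apply]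
  · rw [Set.indicator_of_notMem ht, Set.indicator_of_notMem ht, smul_zero]

lemma resF_norm (s : Set α) (hs : MeasurableSet s) (x : Lp 𝕜 1 μ) :
    ‖resF s hs x‖ = ∫ t in s, ‖x t‖ ∂μ := by
  rw [L1.norm_eq_integral_norm, ← integral_indicator hs]
  apply integral_congr_ae
  filter_upwards [resF_coe s hs x] with t h1
  rw [h1]
  by_cases ht : t ∈ s
  · rw [Set.indicator_of_mem ht, Set.indicator_of_mem ht]
  · rw [Set.indicator_of_notMem ht, Set.indicator_of_notMem ht, norm_zero]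

lemma resF_le (s : Set α) (hs : MeasurableSet s) (x : Lp 𝕜 1 μ) : ‖resF s hs x‖ ≤ ‖x‖ := by
  rw [resF_norm, L1.norm_eq_integral_norm]
  apply setIntegral_le_integral (L1.integrable_coeFn x).norm
  filter_upwards with t
  exact norm_nonneg _

/-- Multiplication with an indicator function as an operator. -/
noncomputable def res (s : Set α) (hs : MeasurableSet s) : Lp 𝕜 1 μ →L[𝕜] Lp 𝕜 1 μ :=
  LinearMap.mkContinuous ⟨⟨resF s hs, resF_add s hs⟩, resF_smul s hs⟩ 1 (by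
    intro x
    rw [one_mul]
    exact resF_le s hs x)

lemma res_apply (s : Set α) (hs : MeasurableSet s) (x : Lp 𝕜 1 μ) : res s hs x = resF s hs x := rfl

lemma res_disj {s t : Set α} (hs : MeasurableSet s) (ht : MeasurableSet t) (h : Disjoint s t)
    (x : Lp 𝕜 1 μ) : resF s hs (resF t ht x) = 0 := by
  apply Lp.ext
  filter_upwards [resF_coe s hs (resF t ht x), resF_coe t ht x, Lp.coeFn_zero 𝕜 1 μ] with a h1 h2 h3
  rw [h1, h3]
  by_cases ha : a ∈ s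
  · rw [Set.indicator_of_mem ha, h2, Set.indicator_of_notMem (Set.disjoint_left.1 h ha)]
    rfl
  · rw [Set.indicator_of_notMem ha]
    rfl

lemma res_same {s : Set α} (hs : MeasurableSet s) (x : Lp 𝕜 1 μ) :
    resF s hs (resF s hs x) = resF s hs x := by
  apply Lp.ext
  filter_upwards [resF_coe s hs (resF s hs x), resF_coe s hs x] with a h1 h2
  rw [h1]
  by_cases ha : a ∈ s
  · rw [Set.indicator_of_mem ha]
  · rw [Set.indicator_of_notMem ha, h2, Set.indicator_of_notMem ha]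

lemma res_split (A : Fin 4 → Set α) (hA : ∀ i, MeasurableSet (A i))
    (hd : Pairwise fun i j => Disjoint (A i) (A j)) (x : Lp 𝕜 1 μ) :
    ‖x - (resF (A 0) (hA 0) x + resF (A 1) (hA 1) x + resF (A 2) (hA 2) x + resF (A 3) (hA 3) x)‖ +
      (‖resF (A 0) (hA 0) x‖ + ‖resF (A 1) (hA 1) x‖ + ‖resF (A 2) (hA 2) x‖ +
        ‖resF (A 3) (hA 3) x‖) ≤ ‖x‖ := by
  have hI := L1.integrable_coeFn x
  set y := x - (resF (A 0) (hA 0) x + resF (A 1) (hA 1) x + resF (A 2) (hA 2) x +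
    resF (A 3) (hA 3) x) with hy
  have hi : ∀ i, Integrable (fun t => ‖(A i).indicator x t‖) μ := fun i =>
    ((hI.indicator (hA i)).norm)
  have hn : ∀ i, ‖resF (A i) (hA i) x‖ = ∫ t, ‖(A i).indicator x t‖ ∂μ := by
    intro i
    rw [L1.norm_eq_integral_norm]
    apply integral_congr_ae
    filter_upwards [resF_coe (A i) (hA i) x] with t h1
    rw [h1]
  have i01 : Integrable (fun t => ‖(A 0).indicator x t‖ + ‖(A 1).indicator x t‖) μ :=
    (hi 0).add (hi 1)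
  have i012 : Integrable (fun t => ‖(A 0).indicator x t‖ + ‖(A 1).indicator x t‖ +
    ‖(A 2).indicator x t‖) μ := i01.add (hi 2)
  have i0123 : Integrable (fun t => ‖(A 0).indicator x t‖ + ‖(A 1).indicator x t‖ +
    ‖(A 2).indicator x t‖ + ‖(A 3).indicator x t‖) μ := i012.add (hi 3)
  rw [hn, hn, hn, hn, L1.norm_eq_integral_norm y, L1.norm_eq_integral_norm x,
    ← integral_add (hi 0) (hi 1), ← integral_add i01 (hi 2), ← integral_add i012 (hi 3),
    ← integral_add (L1.integrable_coeFn y).norm i0123]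
  apply le_of_eq
  apply integral_congr_ae
  filter_upwards [Lp.coeFn_sub x (resF (A 0) (hA 0) x + resF (A 1) (hA 1) x + resF (A 2) (hA 2) x +
    resF (A 3) (hA 3) x),
    Lp.coeFn_add (resF (A 0) (hA 0) x + resF (A 1) (hA 1) x + resF (A 2) (hA 2) x)
      (resF (A 3) (hA 3) x),
    Lp.coeFn_add (resF (A 0) (hA 0) x + resF (A 1) (hA 1) x) (resF (A 2) (hA 2) x),
    Lp.coeFn_add (resF (A 0) (hA 0) x) (resF (A 1) (hA 1) x),
    resF_coe (A 0) (hA 0) x, resF_coe (A 1) (hA 1) x, resF_coe (A 2) (hA 2) x,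
    resF_coe (A 3) (hA 3) x] with t k1 k2 k3 k4 h0 h1 h2 h3
  have hyt : y t = x t - ((A 0).indicator x t + (A 1).indicator x t + (A 2).indicator x t +
      (A 3).indicator x t) := by
    rw [hy, k1, Pi.sub_apply, k2, Pi.add_apply, k3, Pi.add_apply, k4, Pi.add_apply, h0, h1, h2, h3]
  rw [hyt]
  have hdj : ∀ i j, i ≠ j → t ∈ A i → t ∉ A j := fun i j hij h =>
    Set.disjoint_left.1 (hd hij) h
  by_cases a0 : t ∈ A 0
  · rw [Set.indicator_of_mem a0, Set.indicator_of_notMem (hdj 0 1 (by decide) a0),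
      Set.indicator_of_notMem (hdj 0 2 (by decide) a0),
      Set.indicator_of_notMem (hdj 0 3 (by decide) a0)]
    simp
  · by_cases a1 : t ∈ A 1
    · rw [Set.indicator_of_mem a1, Set.indicator_of_notMem a0,
        Set.indicator_of_notMem (hdj 1 2 (by decide) a1),
        Set.indicator_of_notMem (hdj 1 3 (by decide) a1)]
      simp
    · by_cases a2 : t ∈ A 2
      · rw [Set.indicator_of_mem a2, Set.indicator_of_notMem a0, Set.indicator_of_notMem a1,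
          Set.indicator_of_notMem (hdj 2 3 (by decide) a2)]
        simp
      · rw [Set.indicator_of_notMem a0, Set.indicator_of_notMem a1, Set.indicator_of_notMem a2]
        by_cases a3 : t ∈ A 3
        · rw [Set.indicator_of_mem a3]
          simp
        · rw [Set.indicator_of_notMem a3]
          simp

lemma res_ne {s : Set α} (hs : MeasurableSet s) (h0 : μ s ≠ 0) (h1 : μ s ≠ ∞) :
    ∃ x : Lp 𝕜 1 μ, resF s hs x ≠ 0 := by
  refine ⟨indicatorConstLp 1 hs h1 (1 : 𝕜), ?_⟩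
  have h2 : resF s hs (indicatorConstLp 1 hs h1 (1 : 𝕜)) = indicatorConstLp 1 hs h1 (1 : 𝕜) := by
    apply Lp.ext
    filter_upwards [resF_coe s hs (indicatorConstLp 1 hs h1 (1 : 𝕜)),
      indicatorConstLp_coeFn (p := 1) (hs := hs) (hμs := h1) (c := (1 : 𝕜))] with a k1 k2
    rw [k1]
    by_cases ha : a ∈ s
    · rw [Set.indicator_of_mem ha]
    · rw [Set.indicator_of_notMem ha, k2, Set.indicator_of_notMem ha]
  rw [h2, ← norm_ne_zero_iff, norm_indicatorConstLp one_ne_zero ENNReal.one_ne_top]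
  simp [Measure.real, ENNReal.toReal_eq_zero_iff, h0, h1]

/-- The estimate for general measure spaces. -/
theorem lone_le (A : Fin 4 → Set α) (hA : ∀ i, MeasurableSet (A i))
    (hd : Pairwise fun i j => Disjoint (A i) (A j)) (h0 : ∀ i, μ (A i) ≠ 0)
    (h1 : ∀ i, μ (A i) ≠ ∞) : quadIndex 𝕜 (Lp 𝕜 1 μ) ≤ 2 / 3 := by
  refine quadIndex_le (R := fun i => res (A i) (hA i)) ?_ ?_ ?_
  · intro i j x
    show resF (A i) (hA i) (resF (A j) (hA j) x) = if i = j then resF (A j) (hA j) x else 0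
    split_ifs with h
    · subst h
      exact res_same (hA i) x
    · exact res_disj (hA i) (hA j) (hd h) x
  · intro x
    exact res_split A hA hd x
  · intro i
    exact res_ne (hA i) (h0 i) (h1 i)

end lone

/-- The four quarters of the unit interval. -/
def quarter (i : Fin 4) : Set ℝ := Set.Ioo ((i : ℝ) / 4) (((i : ℝ) + 1) / 4)

lemma quarter_meas (i : Fin 4) : MeasurableSet (quarter i) := measurableSet_Ioo

lemma quarter_disj : Pairwise fun i j => Disjoint (quarter i) (quarter j) := by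
  intro i j hij
  rw [Set.disjoint_left]
  intro t h1 h2
  obtain ⟨a1, a2⟩ := h1
  obtain ⟨b1, b2⟩ := h2
  rcases lt_or_gt_of_ne hij with h | h
  · have h3 : ((i : ℕ) : ℝ) + 1 ≤ ((j : ℕ) : ℝ) := by exact_mod_cast h
    linarith
  · have h3 : ((j : ℕ) : ℝ) + 1 ≤ ((i : ℕ) : ℝ) := by exact_mod_cast h
    linarith

lemma quarter_vol (i : Fin 4) :
    (volume.restrict (Set.Icc (0 : ℝ) 1)) (quarter i) = ENNReal.ofReal (1 / 4) := by
  rw [Measure.restrict_apply (quarter_meas i), Set.inter_eq_left.2]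
  · rw [quarter, Real.volume_Ioo]
    congr 1
    ring
  · rintro t ⟨h1, h2⟩
    have h3 : (0 : ℝ) ≤ ((i : ℕ) : ℝ) := Nat.cast_nonneg _
    have h4 : ((i : ℕ) : ℝ) + 1 ≤ 4 := by exact_mod_cast i.2
    constructor <;> linarith

/-- The second polynomial numerical indices of the real and the complex space `L₁[0,1]` are at most
`2/3`. -/
theorem result :
    quadIndex ℝ (Lp ℝ 1 (volume.restrict (Set.Icc (0 : ℝ) 1))) ≤ 2 / 3 ∧
    quadIndex ℂ (Lp ℂ 1 (volume.restrict (Set.Icc (0 : ℝ) 1))) ≤ 2 / 3 := by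
  have h0 : ∀ i, (volume.restrict (Set.Icc (0 : ℝ) 1)) (quarter i) ≠ 0 := by
    intro i
    rw [quarter_vol]
    simp
  have h1 : ∀ i, (volume.restrict (Set.Icc (0 : ℝ) 1)) (quarter i) ≠ ∞ := by
    intro i
    rw [quarter_vol]
    exact ENNReal.ofReal_ne_top
  exact ⟨lone_le quarter quarter_meas quarter_disj h0 h1,
    lone_le quarter quarter_meas quarter_disj h0 h1⟩

end Pool.Agent.Results.MP_6cf06e_an.LOne
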