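import Mathlib

open scoped Topology

namespace Pool.Agent.Results.MP_6cf06e_an.RealContinuous

/-- The numerical radius of a map `F` from `X` to `X`: the supremum of `|f (F x)|` over all
`x` and all functionals `f` with `‖x‖ = ‖f‖ = f x = 1`. -/
noncomputable def radius {X : Type} [NormedAddCommGroup X] [NormedSpace ℝ X] (F : X → X) : ℝ :=
  sSup {r : ℝ | ∃ (x : X) (f : X →L[ℝ] ℝ), ‖x‖ = 1 ∧ ‖f‖ = 1 ∧ f x = 1 ∧ r = |f (F x)|}

/-- The polynomial numerical index of order two of a real normed space; the polynomials are the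
maps `x ↦ A x x` with `A` a bounded bilinear map, normed by the supremum over the unit sphere. -/
noncomputable def quadIndex (X : Type) [NormedAddCommGroup X] [NormedSpace ℝ X] : ℝ :=
  sInf {s : ℝ | ∃ A : X →L[ℝ] X →L[ℝ] X,
    sSup {r : ℝ | ∃ x : X, ‖x‖ = 1 ∧ r = ‖A x x‖} = 1 ∧ s = radius (fun x => A x x)}

lemma radius_nonneg {X : Type} [NormedAddCommGroup X] [NormedSpace ℝ X] (F : X → X) :
    0 ≤ radius F := by
  apply Real.sSup_nonneg
  rintro _ ⟨x, f, hx, hf, hfx, rfl⟩
  exact abs_nonneg _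

lemma radius_bdd {X : Type} [NormedAddCommGroup X] [NormedSpace ℝ X] (A : X →L[ℝ] X →L[ℝ] X) :
    BddAbove {r : ℝ | ∃ (x : X) (f : X →L[ℝ] ℝ), ‖x‖ = 1 ∧ ‖f‖ = 1 ∧ f x = 1 ∧
      r = |f (A x x)|} := by
  refine ⟨‖A‖, ?_⟩
  rintro _ ⟨x, f, hx, hf, _, rfl⟩
  have h1 := A.le_opNorm₂ x x
  have h2 := f.le_opNorm (A x x)
  rw [hx, mul_one, mul_one] at h1
  rw [hf, one_mul] at h2
  exact h2.trans h1

section CK

variable {K : Type} [TopologicalSpace K] [CompactSpace K]

lemma norm_le_iff' {x : C(K, ℝ)} {c : ℝ} (hc : 0 ≤ c) : ‖x‖ ≤ c ↔ ∀ t, |x t| ≤ c := by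
  rw [ContinuousMap.norm_le _ hc]; rfl

lemma abs_le_norm (x : C(K, ℝ)) (t : K) : |x t| ≤ ‖x‖ := x.norm_coe_le_norm t

/-- Evaluation functionals. -/
noncomputable def ev (t : K) : C(K, ℝ) →L[ℝ] ℝ := ContinuousMap.evalCLM ℝ t

omit [CompactSpace K] in
@[simp] lemma ev_apply (t : K) (x : C(K, ℝ)) : ev t x = x t := rfl

lemma norm_ev_le (t : K) : ‖ev t‖ ≤ 1 :=
  ContinuousLinearMap.opNorm_le_bound _ zero_le_one fun x => by
    rw [one_mul]; exact abs_le_norm x t

/-- Values at points where the modulus is one are controlled by the radius. -/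
lemma val_le (A : C(K, ℝ) →L[ℝ] C(K, ℝ) →L[ℝ] C(K, ℝ)) (x : C(K, ℝ)) (t : K) (hx : ‖x‖ ≤ 1)
    (ht : |x t| = 1) : |A x x t| ≤ radius (fun x => A x x) := by
  have hx1 : ‖x‖ = 1 := le_antisymm hx (ht ▸ abs_le_norm x t)
  have hsq : x t * x t = 1 := by
    rw [← abs_mul_abs_self, ht, mul_one]
  have h1 : (x t • ev t) x = 1 := by
    rw [_root_.smul_apply, ev_apply, smul_eq_mul, hsq]
  have h2 : ‖x t • ev t‖ = 1 := by
    apply le_antisymm
    · refine ContinuousLinearMap.opNorm_le_bound _ zero_le_one fun y => ?_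
      rw [_root_.smul_apply, ev_apply, smul_eq_mul, Real.norm_eq_abs, abs_mul, ht]
      exact mul_le_mul_of_nonneg_left (abs_le_norm y t) zero_le_one
    · have h3 := (x t • ev t).le_opNorm x
      rw [h1, hx1, mul_one, norm_one] at h3
      exact h3
  have h3 : |(x t • ev t) (A x x)| ≤ radius (fun x => A x x) :=
    le_csSup (radius_bdd A) ⟨x, x t • ev t, hx1, h2, h1, rfl⟩
  rw [_root_.smul_apply, ev_apply, smul_eq_mul, abs_mul, ht, one_mul] at h3
  exact h3

/-- The lower bound. -/
lemma norm_le_two (A : C(K, ℝ) →L[ℝ] C(K, ℝ) →L[ℝ] C(K, ℝ)) (x : C(K, ℝ)) (hx : ‖x‖ ≤ 1) :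
    ‖A x x‖ ≤ 2 * radius (fun x => A x x) := by
  set v := radius (fun x => A x x) with hv
  have hv0 : 0 ≤ v := radius_nonneg _
  rw [norm_le_iff' (by positivity)]
  intro t
  set a := x t with ha
  have hxt : ∀ s, |x s| ≤ 1 := fun s => (abs_le_norm x s).trans hx
  have ha1 : |a| ≤ 1 := hxt t
  rcases ha1.eq_or_lt with h | h
  · have := val_le A x t hx h
    linarith
  · obtain ⟨h1, h2⟩ := abs_lt.1 h
    have hp : 0 < 1 - a := by linarith
    have hm : 0 < 1 + a := by linarith
    -- the bump function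
    set e : C(K, ℝ) := ⟨fun s => min ((1 - x s) / (1 - a)) ((1 + x s) / (1 + a)), by fun_prop⟩
      with he
    have hea : ∀ s, e s = min ((1 - x s) / (1 - a)) ((1 + x s) / (1 + a)) := fun s => rfl
    have het : e t = 1 := by
      rw [hea, ← ha, div_self hp.ne', div_self hm.ne', min_self]
    have he0 : ∀ s, 0 ≤ e s := by
      intro s
      obtain ⟨b1, b2⟩ := abs_le.1 (hxt s)
      rw [hea]
      exact le_min (div_nonneg (by linarith) hp.le) (div_nonneg (by linarith) hm.le)
    have hep : ∀ s, (1 - a) * e s ≤ 1 - x s := by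
      intro s
      have : e s ≤ (1 - x s) / (1 - a) := min_le_left _ _
      rw [le_div_iff₀ hp] at this
      linarith
    have hem : ∀ s, (1 + a) * e s ≤ 1 + x s := by
      intro s
      have : e s ≤ (1 + x s) / (1 + a) := min_le_right _ _
      rw [le_div_iff₀ hm] at this
      linarith
    have he1 : ∀ s, e s ≤ 1 := by
      intro s
      have := hep s
      have := hem s
      linarith
    have hen : ‖e‖ ≤ 1 := by
      rw [norm_le_iff' zero_le_one]
      intro s
      rw [abs_le]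
      exact ⟨by linarith [he0 s], he1 s⟩
    have hxp : ‖x + (1 - a) • e‖ ≤ 1 := by
      rw [norm_le_iff' zero_le_one]
      intro s
      have h3 := hep s
      have h4 := mul_nonneg hp.le (he0 s)
      obtain ⟨b1, b2⟩ := abs_le.1 (hxt s)
      show |x s + (1 - a) * e s| ≤ 1
      rw [abs_le]
      constructor <;> linarith
    have hxm : ‖x + (-(1 + a)) • e‖ ≤ 1 := by
      rw [norm_le_iff' zero_le_one]
      intro s
      have h3 := hem s
      have h4 := mul_nonneg hm.le (he0 s)
      obtain ⟨b1, b2⟩ := abs_le.1 (hxt s)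
      show |x s + (-(1 + a)) * e s| ≤ 1
      rw [abs_le]
      constructor <;> linarith
    have vp : |A (x + (1 - a) • e) (x + (1 - a) • e) t| ≤ v := by
      apply val_le A _ t hxp
      show |x t + (1 - a) * e t| = 1
      rw [het, ← ha]
      have : a + (1 - a) * 1 = 1 := by ring
      rw [this, abs_one]
    have vm : |A (x + (-(1 + a)) • e) (x + (-(1 + a)) • e) t| ≤ v := by
      apply val_le A _ t hxm
      show |x t + (-(1 + a)) * e t| = 1
      rw [het, ← ha]
      have : a + (-(1 + a)) * 1 = -1 := by ring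
      rw [this, abs_neg, abs_one]
    have ve : |A e e t| ≤ v := val_le A e t hen (by rw [het, abs_one])
    have expand : ∀ c : ℝ, A (x + c • e) (x + c • e) t =
        A x x t + c * (A x e t + A e x t) + c ^ 2 * A e e t := by
      intro c
      have : A (x + c • e) (x + c • e) = A x x + c • A x e + c • (A e x + c • A e e) := by
        have hA1 : A (x + c • e) = A x + c • A e := by rw [map_add, map_smul]
        rw [hA1, _root_.add_apply, _root_.smul_apply, map_add, map_add, map_smul, map_smul]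
      rw [this]
      show A x x t + c * A x e t + c * (A e x t + c * A e e t) = _
      ring
    rw [expand] at vp vm
    rw [abs_le] at vp vm ve ⊢
    obtain ⟨p1, p2⟩ := vp
    obtain ⟨m1, m2⟩ := vm
    obtain ⟨e1, e2⟩ := ve
    constructor <;> nlinarith [mul_nonneg hp.le hm.le, mul_le_mul_of_nonneg_left p1 hm.le,
      mul_le_mul_of_nonneg_left p2 hm.le, mul_le_mul_of_nonneg_left m1 hp.le,
      mul_le_mul_of_nonneg_left m2 hp.le, mul_le_mul_of_nonneg_left e1 (mul_nonneg hp.le hm.le),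
      mul_le_mul_of_nonneg_left e2 (mul_nonneg hp.le hm.le), sq_nonneg a]

/-- The bilinear map of the example. -/
noncomputable def bil (φ : C(K, ℝ)) (s : K) : C(K, ℝ) →L[ℝ] C(K, ℝ) →L[ℝ] C(K, ℝ) :=
  (ev s).smulRight ((ev s).smulRight φ) -
    (1 / 2 : ℝ) • (ContinuousLinearMap.mul ℝ C(K, ℝ)).comp (ContinuousLinearMap.mul ℝ C(K, ℝ) φ)

lemma bil_apply (φ : C(K, ℝ)) (s : K) (x y : C(K, ℝ)) (t : K) :
    bil φ s x y t = x s * (y s * φ t) - 1 / 2 * (φ t * x t * y t) := rfl

lemma bil_apply' (φ : C(K, ℝ)) (s : K) (x : C(K, ℝ)) (t : K) :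
    bil φ s x x t = φ t * (x s ^ 2 - x t ^ 2 / 2) := by
  rw [bil_apply]; ring

/-- For a compact Hausdorff space with at least two points the real space of continuous functions
has second polynomial numerical index one half. -/
theorem main (K : Type) [TopologicalSpace K] [CompactSpace K] [T2Space K] [Nontrivial K] :
    quadIndex C(K, ℝ) = 1 / 2 := by
  obtain ⟨t₀, s, hts⟩ := exists_pair_ne K
  obtain ⟨φ, hφt, hφs, hφ⟩ : ∃ φ : C(K, ℝ), φ t₀ = 1 ∧ φ s = 0 ∧ ∀ t, 0 ≤ φ t ∧ φ t ≤ 1 := by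
    obtain ⟨f, hf0, hf1, hf⟩ := exists_continuous_zero_one_of_isClosed (X := K)
      (s := {s}) (t := {t₀}) isClosed_singleton isClosed_singleton (by
        rw [Set.disjoint_singleton]; exact hts.symm)
    exact ⟨f, hf1 rfl, hf0 rfl, fun t => hf t⟩
  have hb : ∀ x : C(K, ℝ), ‖x‖ ≤ 1 → ∀ t, |bil φ s x x t| ≤ 1 - x t ^ 2 / 2 := by
    intro x hx t
    have h1 := abs_le.1 ((abs_le_norm x t).trans hx)
    have h2 := abs_le.1 ((abs_le_norm x s).trans hx)
    have h3 : x t ^ 2 ≤ 1 := by nlinarith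
    have h4 : x s ^ 2 ≤ 1 := by nlinarith
    obtain ⟨h5, h6⟩ := hφ t
    rw [bil_apply', abs_mul, abs_of_nonneg h5]
    have h7 : |x s ^ 2 - x t ^ 2 / 2| ≤ 1 - x t ^ 2 / 2 := by
      rw [abs_le]
      constructor <;> nlinarith [sq_nonneg (x t), sq_nonneg (x s)]
    have h8 := abs_nonneg (x s ^ 2 - x t ^ 2 / 2)
    nlinarith
  have hle : ∀ x : C(K, ℝ), ‖x‖ = 1 → ‖bil φ s x x‖ ≤ 1 := by
    intro x hx
    rw [norm_le_iff' zero_le_one]
    intro t
    have := hb x hx.le t
    nlinarith [sq_nonneg (x t)]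
  have hsup : sSup {r : ℝ | ∃ x : C(K, ℝ), ‖x‖ = 1 ∧ r = ‖bil φ s x x‖} = 1 := by
    apply le_antisymm
    · apply Real.sSup_le _ zero_le_one
      rintro _ ⟨x, hx, rfl⟩
      exact hle x hx
    · apply le_csSup
      · refine ⟨1, ?_⟩
        rintro _ ⟨x, hx, rfl⟩
        exact hle x hx
      · have hn : ‖1 - φ‖ = 1 := by
          apply le_antisymm
          · rw [norm_le_iff' zero_le_one]
            intro t
            obtain ⟨h5, h6⟩ := hφ t
            show |1 - φ t| ≤ 1
            rw [abs_le]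
            constructor <;> linarith
          · have := abs_le_norm (1 - φ) s
            have h2 : (1 - φ) s = 1 := by show 1 - φ s = 1; rw [hφs, sub_zero]
            rw [h2, abs_one] at this
            exact this
        refine ⟨1 - φ, hn, le_antisymm ?_ (hle _ hn)⟩
        have := abs_le_norm (bil φ s (1 - φ) (1 - φ)) t₀
        have h2 : bil φ s (1 - φ) (1 - φ) t₀ = 1 := by
          rw [bil_apply']
          show φ t₀ * ((1 - φ s) ^ 2 - (1 - φ t₀) ^ 2 / 2) = 1
          rw [hφt, hφs]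
          norm_num
        rw [h2, abs_one] at this
        exact this
  have hrad : radius (fun x => bil φ s x x) ≤ 1 / 2 := by
    apply Real.sSup_le _ (by norm_num)
    rintro _ ⟨x, f, hx, hf, hfx, rfl⟩
    have key : ∀ c : ℝ, |c| ≤ 1 → ‖x + c • bil φ s x x‖ ≤ 1 + |c| / 2 := by
      intro c hc
      rw [norm_le_iff' (by positivity)]
      intro t
      have h1 := hb x hx.le t
      have h2 := (abs_le_norm x t).trans hx.le
      have h3 := abs_nonneg (x t)
      have h4 := abs_nonneg c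
      show |x t + c * bil φ s x x t| ≤ 1 + |c| / 2
      refine (abs_add_le _ _).trans ?_
      rw [abs_mul]
      have h5 : |c| * |bil φ s x x t| ≤ |c| * (1 - x t ^ 2 / 2) := by gcongr
      have h6 : x t ^ 2 = |x t| ^ 2 := (sq_abs _).symm
      rw [h6] at h5
      have h7 : 0 ≤ (1 - |x t|) * (1 - |c| * (1 + |x t|) / 2) :=
        mul_nonneg (by linarith) (by nlinarith)
      nlinarith
    have k1 : f (x + (1 : ℝ) • bil φ s x x) = 1 + f (bil φ s x x) := by
      rw [map_add, map_smul, hfx, one_smul]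
    have k2 : f (x + (-1 : ℝ) • bil φ s x x) = 1 - f (bil φ s x x) := by
      rw [map_add, map_smul, hfx, smul_eq_mul]; ring
    have n1 := key 1 (by simp)
    have n2 := key (-1) (by simp)
    have l1 := (le_abs_self _).trans (f.le_opNorm (x + (1 : ℝ) • bil φ s x x))
    have l2 := (le_abs_self _).trans (f.le_opNorm (x + (-1 : ℝ) • bil φ s x x))
    rw [hf, one_mul, k1] at l1
    rw [hf, one_mul, k2] at l2
    rw [abs_one] at n1
    rw [abs_neg, abs_one] at n2
    rw [abs_le]
    constructor <;> linarith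
  apply le_antisymm
  · have hbd : BddBelow {s : ℝ | ∃ A : C(K, ℝ) →L[ℝ] C(K, ℝ) →L[ℝ] C(K, ℝ),
        sSup {r : ℝ | ∃ x : C(K, ℝ), ‖x‖ = 1 ∧ r = ‖A x x‖} = 1 ∧
        s = radius (fun x => A x x)} := by
      refine ⟨0, ?_⟩
      rintro _ ⟨B, _, rfl⟩
      exact radius_nonneg _
    exact (csInf_le hbd ⟨bil φ s, hsup, rfl⟩).trans hrad
  · refine le_csInf ⟨_, bil φ s, hsup, rfl⟩ ?_
    rintro _ ⟨A, hA, rfl⟩
    have h1 : sSup {r : ℝ | ∃ x : C(K, ℝ), ‖x‖ = 1 ∧ r = ‖A x x‖} ≤
        2 * radius (fun x => A x x) := by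
      apply Real.sSup_le _ (mul_nonneg zero_le_two (radius_nonneg _))
      rintro _ ⟨x, hx, rfl⟩
      exact norm_le_two A x hx.le
    rw [hA] at h1
    linarith

end CK

/-- The second polynomial numerical index of the real space `C(K)` is one half for every compact
Hausdorff space `K` with at least two points, in particular for the unit interval. -/
theorem result : ∀ (K : Type) [TopologicalSpace K] [CompactSpace K] [T2Space K] [Nontrivial K],
    quadIndex C(K, ℝ) = 1 / 2 :=
  fun K _ _ _ _ => main K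

end Pool.Agent.Results.MP_6cf06e_an.RealContinuous
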